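import Pool.Agent.helper22.EC.Fin

/-!
# MP_00de39_al (Q1): it is decidable whether a subgroup of a free group is echelon

`Ech (n, ws)` says that `ws` is a list of words in the letters `0, ..., n-1` (and their inverses)
and that the subgroup generated by these words is an echelon subgroup of the free group of rank `n`
(definitions: `Pool/Agent/helper22/EC/Defs.lean`). The theorem: this predicate is decidable, even
by a primitive recursive algorithm.
-/

set_option autoImplicit false

namespace Pool.Agent.Results.MP_00de39_al.EchelonDecidable

open Pool.Agent.helper22.EC

/-- Whether the subgroup generated by a finite list of words in a free group of finite rank is an
echelon subgroup is decidable, and the decision procedure is primitive recursive. -/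
theorem result : PrimrecPred Ech := ech_prim

/-- In particular the predicate is computable. -/
theorem result_computable : ComputablePred Ech := ech_computable

end Pool.Agent.Results.MP_00de39_al.EchelonDecidable
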